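import Pool.Agent.P.MP_e3cf1a_co.Sh.All

open Pool.Agent.P.MP_e3cf1a_co

/-- Let `G` be a finite graph whose 3-uniform expansion has crosscut number three and which
contains no copy of `K_{3,m+1}`. Then
`(1 - o(1)) n² ≤ ex_3(n, G⁺) ≤ (max(1, (m - 1) / 6) + o(1)) n²`. -/
theorem Pool.Agent.Results.MP_e3cf1a_co.SharpConstant.result
    {V : Type} [Fintype V] [DecidableEq V] (G : SimpleGraph V)
    (hσ : CrosscutNumberEq (expansion G) 3) (m : ℕ)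
    (hm : (completeBipartiteGraph (Fin 3) (Fin (m + 1))).Free G) (ε : ℝ) (hε : 0 < ε) :
    ∀ᶠ n : ℕ in Filter.atTop, (1 - ε) * (n : ℝ) ^ 2 ≤ (ex3 n (expansion G) : ℝ) ∧
      (ex3 n (expansion G) : ℝ) ≤ (max 1 (((m : ℝ) - 1) / 6) + ε) * (n : ℝ) ^ 2 :=
  X.sharp X.all_SHAPE X.all_EMB X.all_F1 X.all_F234 X.all_RESTR X.all_LOW X.all_SH1 X.all_TRI
    G hσ m hm ε hε
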