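import Pool.Agent.P.MP_e3cf1a_co.Sh.All

open Pool.Agent.P.MP_e3cf1a_co

/-- For every finite graph `G` whose 3-uniform expansion has crosscut number three,
`limsup ex_3(n, G⁺) / n² = max(1, limsup ex(n, K_3, G) / n²)`. -/
theorem Pool.Agent.Results.MP_e3cf1a_co.TriangleFormula.result
    {V : Type} [Fintype V] [DecidableEq V] (G : SimpleGraph V)
    (hσ : CrosscutNumberEq (expansion G) 3) :
    Filter.limsup (fun n : ℕ => (((ex3 n (expansion G) : ℝ) / (n : ℝ) ^ 2 : ℝ) : EReal))
        Filter.atTop =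
      max 1 (Filter.limsup (fun n : ℕ => (((exTri n G : ℝ) / (n : ℝ) ^ 2 : ℝ) : EReal))
        Filter.atTop) :=
  X.formula X.all_SHAPE X.all_EMB X.all_F1 X.all_F234 X.all_RESTR X.all_LOW G hσ
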